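import Pool.Agent.H608R4.KM.Stm

set_option autoImplicit false

/-! # The cubic cross terms -/

namespace Pool.Agent.TH811.KM

open Pool.Agent.H608R4.KM

theorem t_M3 : S_M3 := by
  intro n s hQ
  have hn : (0 : ℝ) ≤ n := Nat.cast_nonneg n
  have hQ0 : 0 ≤ Q s := by
    unfold Q
    positivity
  have hQdef : Q s = ∑ i, |s i| ^ 2 := by
    unfold Q
    exact Finset.sum_congr rfl fun i _ => (sq_abs _).symm
  have hS0 : 0 ≤ ∑ i, |s i| := Finset.sum_nonneg fun i _ => abs_nonneg _
  have h1 : (∑ i, |s i|) ^ 2 ≤ n * Q s := by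
    have := Finset.sum_mul_sq_le_sq_mul_sq Finset.univ (fun i => |s i|) (fun _ => (1 : ℝ))
    simp only [mul_one, one_pow, Finset.sum_const, Finset.card_univ, Fintype.card_fin,
      nsmul_eq_mul] at this
    rw [hQdef]
    linarith
  have h2 : ∑ i, ∑ j, |s i * s j| * (|s i| + |s j|) = 2 * Q s * ∑ i, |s i| := by
    have e1 : ∀ i j, |s i * s j| * (|s i| + |s j|) = |s i| ^ 2 * |s j| + |s i| * |s j| ^ 2 := by
      intro i j
      rw [abs_mul]
      ring
    simp only [e1, Finset.sum_add_distrib]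
    rw [← Finset.sum_mul_sum, ← Finset.sum_mul_sum, ← hQdef]
    ring
  rw [h2]
  have hd : (dl : ℝ) = 10 ^ (-8 : ℤ) := by
    unfold dl
    norm_num
  have h3 : Q s ≤ 25 / 10 ^ 8 * n := by
    rw [hd] at hQ
    norm_num at hQ ⊢
    linarith
  have h4 : ∑ i, |s i| ≤ n / 2000 := by
    by_contra h
    push Not at h
    have h5 : (0 : ℝ) ≤ n / 2000 := by positivity
    nlinarith
  nlinarith

end Pool.Agent.TH811.KM
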